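import Pool.Agent.W_448w7_h94.WiG
import Pool.Agent.W_448s7s_h5.TvH

/-!
The numbers of the elements of level 15 at the boundary (MP_448cb3_co, S7, `j = 14`, window 7).
-/

namespace Pool.Agent.GaussPoset.W7

set_option linter.unusedSectionVars false

open Polynomial Finset Fi Cl Dd Wd

universe u

variable {P : Type u} [Fintype P] [PartialOrder P] [DecidableEq P] {r n0 : ℕ}
  {N : Tops P → Finset P} {b : Tops P → ℕ} {θ : Tops P → P → ℕ}

/-- the pendant of the first cell of a strip `La7` -/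
theorem WL.p0_num (W : WL r n0 N b θ) {t : Tops P} {lo hi : ℕ → ℕ} {e : ℕ → ℕ → P}
    {A : Finset P} (L : LaD n0 N (θ t) t lo hi e A) {z : P} (hm : Sg.Mk e z 33554432)
    (hz : z ∈ r2 (2 * 7) N) : h2 (2 * 7) N θ z = 5 ∧ cst 7 (h2 (2 * 7) N θ) z = 40 ∧
      nab 7 z = nab (7 + 5) z + 1 ∧ nst 7 (h2 (2 * 7) N θ) z = 10 := by
  have H := W.gt.H
  have hcov : ∀ y, z ⋖ y ↔ y = Sg.ce e 25 := by
    intro y
    rw [hm.2 y]
    constructor
    · rintro ⟨b, hb, hbit, rfl⟩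
      have key : ∀ b < 30, Nat.testBit 33554432 b = true → b = 25 := by decide +kernel
      rw [key b hb hbit]
    · rintro rfl
      exact ⟨25, by norm_num, by decide +kernel, rfl⟩
  have hzy : z ⋖ Sg.ce e 25 := (hcov _).mpr rfl
  have h1 := Sg.La7_le L.word L.comp (a := 25) (by norm_num)
  have hl14 : La7lv.getD 25 0 = 14 := by decide +kernel
  rw [hl14] at h1
  have hyN : Sg.ce e 25 ∈ N t := by
    rw [L.nat]
    exact mem_union_left _ (mem_lowPart.mpr ⟨h1.1, h1.2.le⟩)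
  have htop : topOf (Sg.ce e 25) = t := (W.natSys.mem_iff.mp hyN).2
  have h2' : h2 (2 * 7) N θ z = 5 := by
    rw [W.h2_eqI hz hm.1 hzy (fun y hy => by rw [(hcov y).mp hy]), htop, L.dat.th.y0]
  obtain ⟨f1, f2, f3, f4⟩ := Tv.p0_facts L.word L.comp W.gt t.2 hm
  refine ⟨h2', ?_, ?_, ?_⟩
  · rw [cst_ct h2']
    exact f1
  · show nab 7 z = nab 12 z + 1
    rw [f2, f3]
  · rw [nst_eq] at f4 ⊢
    rw [h2']
    exact f4

/-- the joins of a fold end and an end `(5;25)` -/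
theorem WL.fb_num (W : WL r n0 N b θ) {z x x' : P} (hx : Fd 7 x) (hx' : Prof 7 x' (gD p5))
    (ht : topOf x ≠ topOf x') (hzx : z ⋖ x) (hzx' : z ⋖ x') :
    z ∈ r2 (2 * 7) N ∧ h2 (2 * 7) N θ z = 2 ∧ cst 7 (h2 (2 * 7) N θ) z = 50 ∧
      nab 7 z = nab 9 z + 1 ∧ nst 7 (h2 (2 * 7) N θ) z = 12 := by
  have H := W.gt.H
  have hz2 := W.join_r2 ht hzx hzx'
  have hl : lev z = 2 * 7 + 1 := by
    have h1 := (W.gt.H.covBy_iff.mp hzx).2
    have h2 := hx.1
    omega
  have hlx' : lev x' = 2 * 7 := by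
    have := (H.covBy_iff.mp hzx').2
    omega
  have hne : x ≠ x' := fun h => ht (by rw [h])
  have hth : θ (topOf x) x ≤ θ (topOf x') x' := by
    rw [W.fold_th hx]
    exact W.th_p5 hlx' hx' hzx'
  have hn : NQ 7 7 N θ z 2 (fun d => (1 + pF 7 d) + (1 + gD p5 d)) := by
    refine NQ.mk' hl (by decide) ?_ fun d hd => ?_
    · rw [W.h2_eqI hz2 hl hzx (fun y hy => ?_), W.fold_th hx]
      rcases uc_pair H hzx hzx' hne hy with e | e
      · rw [e]
      · rw [e]; exact hth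
    · rw [W.nab_joinI hl hzx hzx' ht (by omega), W.fold_prof hx d (by omega),
        hx' d (by omega)]
  have h1 := hn.lab
  have h3 := hn.n1
  rw [h1] at h3
  refine ⟨hz2, h1, ?_, ?_, ?_⟩
  · rw [hn.cst]
    decide +kernel
  · show nab 7 z = nab (7 + 2) z + 1
    rw [hn.n0, h3]
    decide +kernel
  · rw [hn.nst]
    decide +kernel

end Pool.Agent.GaussPoset.W7
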