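import Pool.Agent.W_448w7_h94.WiG
import Pool.Agent.W_448f6_h94.FxR
import Pool.Agent.W_448s7s_h5.TvF
import Pool.Agent.W_448s8f_h76.FkB
import Pool.Agent.W_448s8f_h76.FjD

/-!
`JH P` from the joins of level 15 (MP_448cb3_co, S7, `j = 14`, window 7).
-/

namespace Pool.Agent.GaussPoset.W7

set_option linter.unusedSectionVars false

open Polynomial Finset Fi Cl Dd Wd

universe u

variable {P : Type u} [Fintype P] [PartialOrder P] [DecidableEq P] {r : ℕ}
  {lo hi : Tops P → ℕ → ℕ} {e : Tops P → ℕ → ℕ → P}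

/-- the profile of the fold ends -/
theorem fold_of_fd (K : Sm.Ctx P r 14 lo hi e) (hr : 15 ≤ r) {x : P} (hx : Fd 7 x) :
    Sm.Fold 14 x := by
  obtain ⟨N, θ, W⟩ := F6.exists_WE K.gt hr K.comp K.shape
  refine ⟨hx.1, by norm_num, fun k hk => ?_⟩
  have h := W.fold_prof hx (14 - k) (by omega)
  rw [show 2 * 7 - (14 - k) = k by omega] at h
  unfold pF at h
  omega

/-- nothing below both ends of a stair -/
theorem noCC_fd (K : Sm.Ctx P r 14 lo hi e) (hr : 15 ≤ r) (hC : Sm.NoCC P 14) :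
    ∀ z x x' : P, Fd 7 x → (Win.uc x').card = 1 → topOf x' = topOf x → x ≠ x' →
      z ⋖ x → z ⋖ x' → False := by
  intro z x x' hx h1 ht hne hz hz'
  have h2 := (K.gt.H.covBy_iff.mp hz).2
  have h3 := hx.1
  exact hC z x x' (by omega) (fold_of_fd K hr hx) hz hz' hne.symm h1 ht.symm

/-- the numbers of a profile -/
lemma prof_mX {x : P} {p : List ℕ} (h : Prof 7 x (gD p)) :
    mX 14 x = ((∑ k ∈ range 14, gD p (14 - k) : ℕ) : ℤ) ∧
      cX 14 x = ((∑ k ∈ range 14, gD p (14 - k) * (14 - k) : ℕ) : ℤ) := by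
  have key : ∀ k, k < 14 → (nab k x : ℤ) - 1 = gD p (14 - k) := by
    intro k hk
    have h1 := h (14 - k) (by omega)
    rw [show 2 * 7 - (14 - k) = k by omega] at h1
    rw [h1]
    push_cast
    ring
  constructor
  · unfold mX
    rw [Nat.cast_sum]
    exact Finset.sum_congr rfl fun k hk => key k (by rw [mem_range] at hk; omega)
  · unfold cX
    rw [Nat.cast_sum]
    refine Finset.sum_congr rfl fun k hk => ?_
    rw [mem_range] at hk
    rw [key k hk, Nat.cast_mul, Nat.cast_sub hk.le]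

lemma p5_of_dt {x : P} (hd : Sm.Dt 14 x (5, 25, 0)) {p : List ℕ}
    (hp : p ∈ [[0, 0, 1, 1, 1], [0, 0, 1, 1, 1, 1, 1], p5, [0, 0, 0, 0, 0, 1], F6.pE])
    (h : Prof 7 x (gD p)) : p = p5 := by
  obtain ⟨h1, h2⟩ := prof_mX h
  have h3 : ∑ k ∈ range 14, gD p (14 - k) = 5 := by
    have := hd.1
    rw [h1] at this
    exact_mod_cast this
  have h4 : ∑ k ∈ range 14, gD p (14 - k) * (14 - k) = 25 := by
    have := hd.2.1
    rw [h2] at this
    exact_mod_cast this
  have key : ∀ p ∈ [[0, 0, 1, 1, 1], [0, 0, 1, 1, 1, 1, 1], p5, [0, 0, 0, 0, 0, 1], F6.pE],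
      ∑ k ∈ range 14, gD p (14 - k) = 5 → ∑ k ∈ range 14, gD p (14 - k) * (14 - k) = 25 →
      p = p5 := by decide +kernel
  exact key p hp h3 h4

/-- **what is known about the elements of level 15** -/
theorem jh_of (K : Sm.Ctx P r 14 lo hi e) (hr : 15 ≤ r) (hC : Sm.NoCC P 14) (hJ : Tv.JFB P) :
    JH P := by
  have hcc := noCC_fd K hr hC
  obtain ⟨g1, g2⟩ := F6.level14 K.gt hr K.comp K.shape hcc
  refine ⟨g1, hcc, ?_⟩
  intro z x x' hl hzx hzx' ht
  have H := K.gt.H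
  have hne : x ≠ x' := fun h => ht (by rw [h])
  have l1 := (H.covBy_iff.mp hzx).2
  have l2 := (H.covBy_iff.mp hzx').2
  have hc : Sm.Cg z x x' := Sm.Cg.mk' hzx hzx' (only_of_le H K.gt.good (le_topOf x) (by omega))
    (only_of_le H K.gt.good (le_topOf x') (by omega)) ht
  obtain ⟨y, y', ⟨hc', hl', hf⟩, hd⟩ := hJ z hl hc.jn
  have hu := K.ends hc' hl'
  have hy : Fd 7 y := ⟨hf.1, hu.1, by have := hf.2.2 2 (by norm_num); omega⟩
  have hp : Prof 7 y' (gD p5) := by
    rcases g2 z y y' hy hc'.ne hc'.cov hc'.cov' with h | ⟨p, hp, hpr⟩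
    · exfalso
      have h3 := (fold_of_fd K hr h).2.2 12 (by norm_num)
      have h4 : nab 12 y' = 0 + 1 := hd.2.2
      omega
    · rw [p5_of_dt hd hp hpr] at hpr
      exact hpr
  have hyy : y ≠ y' := fun h => hc'.ne (by rw [h])
  rcases uc_pair H hzx hzx' hne hc'.cov with rfl | rfl
  · rcases uc_pair H hzx hzx' hne hc'.cov' with rfl | rfl
    · exact absurd rfl hyy
    · exact Or.inl ⟨hy, hp⟩
  · rcases uc_pair H hzx hzx' hne hc'.cov' with rfl | rfl
    · exact Or.inr ⟨hy, hp⟩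
    · exact absurd rfl hyy

end Pool.Agent.GaussPoset.W7
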