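import Pool.Agent.W_448s7_h27.PpM
import Pool.Agent.W_448w7_h15.WnB

/-!
The joins of level 15 for `j = 14` (MP_448cb3_co, S7, window 7): `JFB P`, `JH P`.
-/

namespace Pool.Agent.GaussPoset.W7

set_option linter.unusedSectionVars false

open Finset Fi Wd

universe u

variable {P : Type u} [Fintype P] [PartialOrder P] [DecidableEq P] {r : ℕ}
  {lo hi : Tops P → ℕ → ℕ} {e : Tops P → ℕ → ℕ → P}

/-- the joins of level 15 are joins of a fold end and an end `(5, 25, 0)` -/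
theorem jfb (K : Sm.Ctx P r 14 lo hi e) (hr : 15 ≤ r) : Tv.JFB P := by
  intro z hl hz
  have hPD := Sm.noPD14 K
  obtain ⟨-, V, -, -, hL⟩ := Sm.phk14 K hr ⟨z, hz⟩
  have key : ∀ x x' : P, Sm.Cg z x x' → Sm.Fold 14 x →
      ∃ x x', W4.FJn 14 z x x' ∧ Sm.Dt 14 x' (5, 25, 0) := by
    intro x x' h hf
    have hF : W4.FJn 14 z x x' := ⟨h, hl, hf⟩
    rcases hL z x x' hF with h1 | ⟨s, hs, h1⟩
    · exact (hPD z x x' h hl (Sm.fold_pd14 hf) (Sm.fold_pd14 h1)).elim
    · unfold Sm.EG14 at hs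
      simp only [List.mem_cons, List.not_mem_nil, or_false] at hs
      rcases hs with rfl | rfl | rfl | rfl
      · exact (hPD z x x' h hl (Sm.fold_pd14 hf) h1.2.2).elim
      · exact (hPD z x x' h hl (Sm.fold_pd14 hf) h1.2.2).elim
      · exact ⟨x, x', hF, h1⟩
      · exact (hPD z x x' h hl (Sm.fold_pd14 hf) h1.2.2).elim
  obtain ⟨x, x', h⟩ := K.cross hz hl
  rcases Sm.foldj14' K hr hPD h hl with h1 | h1
  · exact key x x' h h1
  · exact key x' x h.symm h1

/-- what is known about the elements of level 15 -/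
theorem jh (K : Sm.Ctx P r 14 lo hi e) (hr : 15 ≤ r) (hJ : ∃ z : P, Hul.Jn z) : JH P :=
  jh_of K hr (Sm.phk14 K hr hJ).1 (jfb K hr)

end Pool.Agent.GaussPoset.W7
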